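import Pool.Agent.H948.SF.Base

/-!
# Project SF (helper948), part SUPER: supermultiplicativity
-/

set_option autoImplicit false

namespace Pool.Agent.H935.SF

open MeasureTheory ProbabilityTheory Set Filter
open scoped ENNReal NNReal Nat Topology
open Pool.Agent.H948.SF

section Count

variable {Ω I J : Type} [MeasurableSpace Ω] {P : Measure Ω}

/-- the sum of the probabilities is the mean number of the events which occur -/
lemma tsum_measure_eq [Countable I] (E : I → Set Ω) (hE : ∀ i, MeasurableSet (E i)) :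
    ∑' i, P (E i) = ∫⁻ ω, (({i | ω ∈ E i}.encard : ℕ∞) : ℝ≥0∞) ∂P := by
  have h1 : ∀ i, P (E i) = ∫⁻ ω, (E i).indicator 1 ω ∂P :=
    fun i => (lintegral_indicator_one (hE i)).symm
  rw [tsum_congr h1, ← lintegral_tsum fun i => (measurable_one.indicator (hE i)).aemeasurable]
  refine lintegral_congr fun ω => ?_
  rw [← ENNReal.tsum_set_one, tsum_subtype {i | ω ∈ E i} fun _ => (1 : ℝ≥0∞)]
  refine tsum_congr fun i => ?_
  by_cases h : ω ∈ E i <;> simp [Set.indicator, h]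

lemma count_le [Countable I] [Countable J] (c : ℕ) (E : I → Set Ω) (T : J → Set Ω)
    (hE : ∀ i, MeasurableSet (E i)) (hT : ∀ j, MeasurableSet (T j))
    (h : ∀ ω, (c : ℕ∞) * {i | ω ∈ E i}.encard ≤ {j | ω ∈ T j}.encard) :
    (c : ℝ≥0∞) * ∑' i, P (E i) ≤ ∑' j, P (T j) := by
  rw [tsum_measure_eq E hE, tsum_measure_eq T hT, ← lintegral_const_mul' _ _ (by simp)]
  refine lintegral_mono fun ω => ?_
  have h1 := h ω
  rw [← ENat.toENNReal_le, ENat.toENNReal_mul] at h1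
  simpa using h1

/-- independence of three events -/
lemma inter3 {J : Type} (r : J → ℝ) (h2 : S_BLOCK) (E1 E2 E3 : Set (J → Cell))
    (I1 I2 I3 : Set J) (m1 : MeasurableSet E1) (m2 : MeasurableSet E2) (m3 : MeasurableSet E3)
    (d1 : ∀ ω ω' : J → Cell, (∀ j ∈ I1, ω j = ω' j) → (ω ∈ E1 ↔ ω' ∈ E1))
    (d2 : ∀ ω ω' : J → Cell, (∀ j ∈ I2, ω j = ω' j) → (ω ∈ E2 ↔ ω' ∈ E2))
    (d3 : ∀ ω ω' : J → Cell, (∀ j ∈ I3, ω j = ω' j) → (ω ∈ E3 ↔ ω' ∈ E3))
    (h12 : Disjoint I1 I2) (h13 : Disjoint I1 I3) (h23 : Disjoint I2 I3) :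
    (Measure.infinitePi fun j => cellLaw (r j)) (E1 ∩ E2 ∩ E3) =
      (Measure.infinitePi fun j => cellLaw (r j)) E1 *
      (Measure.infinitePi fun j => cellLaw (r j)) E2 *
      (Measure.infinitePi fun j => cellLaw (r j)) E3 := by
  have hind := h2 J r (Fin 3) (fun _ => Prop)
    (fun k ω => ω ∈ (![E1, E2, E3] : Fin 3 → Set (J → Cell)) k)
    (![I1, I2, I3] : Fin 3 → Set J)
    (by
      intro k
      fin_cases k
      · exact measurableSet_setOfPred.mp m1
      · exact measurableSet_setOfPred.mp m2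
      · exact measurableSet_setOfPred.mp m3)
    (by
      intro k ω ω' h
      fin_cases k
      · exact propext (d1 ω ω' h)
      · exact propext (d2 ω ω' h)
      · exact propext (d3 ω ω' h))
    (by
      intro k k' hk
      fin_cases k <;> fin_cases k'
      · exact absurd rfl hk
      · exact h12
      · exact h13
      · exact h12.symm
      · exact absurd rfl hk
      · exact h23
      · exact h13.symm
      · exact h23.symm
      · exact absurd rfl hk)
  rw [iIndepFun_iff_measure_inter_preimage_eq_mul] at hind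
  have h := hind Finset.univ (sets := fun _ => {True}) (fun i _ => MeasurableSpace.measurableSet_top)
  have e1 : (⋂ i ∈ (Finset.univ : Finset (Fin 3)),
      (fun ω : J → Cell => ω ∈ (![E1, E2, E3] : Fin 3 → Set (J → Cell)) i) ⁻¹' {True}) =
      E1 ∩ E2 ∩ E3 := by
    ext ω
    simp only [Finset.mem_univ, iInter_true, mem_iInter, mem_preimage, mem_singleton_iff,
      eq_iff_iff, iff_true, mem_inter_iff]
    constructor
    · intro hω
      exact ⟨⟨hω 0, hω 1⟩, hω 2⟩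
    · rintro ⟨⟨a, b⟩, c⟩ i
      fin_cases i
      · exact a
      · exact b
      · exact c
  have p1 : (fun ω : J → Cell => ω ∈ (![E1, E2, E3] : Fin 3 → Set (J → Cell)) 0) ⁻¹' {True} =
      E1 := by
    ext ω
    simp
  have p2 : (fun ω : J → Cell => ω ∈ (![E1, E2, E3] : Fin 3 → Set (J → Cell)) 1) ⁻¹' {True} =
      E2 := by
    ext ω
    simp
  have p3 : (fun ω : J → Cell => ω ∈ (![E1, E2, E3] : Fin 3 → Set (J → Cell)) 2) ⁻¹' {True} =
      E3 := by
    ext ω
    simp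
  rw [e1, Fin.prod_univ_three, p1, p2, p3] at h
  exact h

end Count

section Events

variable {e : ℕ}

/-- `w` at time `-n` is connected to the root inside the first `R` levels -/
def Tev (e R n : ℕ) (w : W e) : Set (Env (Lab (W e))) :=
  {ω | Con (TR e R) ω w (-(n : ℤ)) [] 0}

/-- `p = (y, a)` is a free pair -/
def Fev (e R n : ℕ) (p : W e × Fin (e + 2)) : Set (Env (Lab (W e))) :=
  {ω | ω ∈ Tev e R n p.1 ∧ ∀ u : W e, ω ∉ Tev e R n (u ++ p.2 :: p.1)}

/-- handing over -/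
def Hev (e n : ℕ) (p : W e × Fin (e + 2)) : Set (Env (Lab (W e))) :=
  {ω | Con (Rs (TW e) {p.2 :: p.1, p.1}) ω (p.2 :: p.1) (-(n : ℤ) - 1) p.1 (-(n : ℤ) - 1 + 1)}

/-- the descendants of `c` before the time `-n-1` -/
def Dev (e R' n n' : ℕ) (c u : W e) : Set (Env (Lab (W e))) :=
  {ω | Con (Rs (TW e) ((· ++ c) '' {w | w.length ≤ R'})) ω (u ++ c)
    (-(n' : ℤ) + (-(n : ℤ) - 1)) ([] ++ c) (0 + (-(n : ℤ) - 1))}

lemma Tev_len {R n : ℕ} {w : W e} {ω : Env (Lab (W e))} (h : ω ∈ Tev e R n w) :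
    w.length ≤ R := by
  have h1 : PE (Rs (TW e) {w | w.length ≤ R}) ω w ((-(n : ℤ) : ℤ) : ℝ) [] ((0 : ℤ) : ℝ) := h
  exact h1.start_of_Rs (by simp)

lemma meas_Con (h3 : S_MEAS) (G : SimpleGraph (W e)) (x y : W e) (k l : ℤ) :
    MeasurableSet {ω : Env (Lab (W e)) | Con G ω x k y l} :=
  h3 (W e) G x y (k : ℝ) (l : ℝ)

lemma meas_Tev (h3 : S_MEAS) (R n : ℕ) (w : W e) : MeasurableSet (Tev e R n w) :=
  meas_Con h3 _ _ _ _ _

lemma meas_Fev (h3 : S_MEAS) (R n : ℕ) (p : W e × Fin (e + 2)) :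
    MeasurableSet (Fev e R n p) := by
  have h1 : Fev e R n p = Tev e R n p.1 ∩ ⋂ u : W e, (Tev e R n (u ++ p.2 :: p.1))ᶜ := by
    ext ω
    simp only [Fev, mem_ofPred_eq, mem_inter_iff, mem_iInter, mem_compl_iff]
  rw [h1]
  exact (meas_Tev h3 R n _).inter (MeasurableSet.iInter fun u => (meas_Tev h3 R n _).compl)

lemma Tev_congr {R n : ℕ} {w : W e} {ω ω' : Env (Lab (W e))}
    (h : ∀ i : Lab (W e) × ℤ, -(n : ℤ) ≤ i.2 → ω i = ω' i) :
    ω ∈ Tev e R n w ↔ ω' ∈ Tev e R n w :=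
  Con_congr fun i hi => h i hi.1

/-- mean number of free pairs -/
lemma free_mean (h3 : S_MEAS) (h5 : S_FREE) (e R n : ℕ) (lam : ℝ) :
    ((e + 1 : ℕ) : ℝ≥0∞) * ∑' w : W e, mu (W e) lam (Tev e R n w) ≤
      ∑' p : W e × Fin (e + 2), mu (W e) lam (Fev e R n p) := by
  refine count_le (e + 1) _ _ (fun w => meas_Tev h3 R n w) (fun p => meas_Fev h3 R n p) ?_
  intro ω
  have hfin : {w : W e | ω ∈ Tev e R n w}.Finite :=
    (List.finite_length_le (Fin (e + 2)) R).subset fun w hw => Tev_len hw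
  have h1 := h5 e hfin.toFinset
  rw [← Set.ncard_eq_toFinset_card _ hfin] at h1
  have h2 : {p : W e × Fin (e + 2) | p.1 ∈ hfin.toFinset ∧
      ∀ u : W e, u ++ p.2 :: p.1 ∉ hfin.toFinset} = {p | ω ∈ Fev e R n p} := by
    ext p
    simp only [Set.Finite.mem_toFinset, mem_ofPred_eq, Fev]
  rw [h2] at h1
  calc ((e + 1 : ℕ) : ℕ∞) * {w : W e | ω ∈ Tev e R n w}.encard
      = ((e + 1 : ℕ) : ℕ∞) * ({w : W e | ω ∈ Tev e R n w}.ncard : ℕ∞) := by
        rw [hfin.cast_ncard_eq]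
    _ = (((e + 1) * {w : W e | ω ∈ Tev e R n w}.ncard : ℕ) : ℕ∞) := by push_cast; rfl
    _ ≤ ({p | ω ∈ Fev e R n p}.ncard : ℕ∞) := by exact_mod_cast h1
    _ ≤ {p | ω ∈ Fev e R n p}.encard := Set.ncard_le_encard _

/-- the probability of the third event -/
lemma Dev_prob (h1 : S_RIX) (h3 : S_MEAS) (e R' n n' : ℕ) (lam : ℝ) (c u : W e) :
    mu (W e) lam (Dev e R' n n' c u) = mu (W e) lam (Tev e R' n' u) := by
  have hmp := h1.2 (W e) (W e) lam (fun u : W e => u ++ c) (-(n : ℤ) - 1) (app_injective c)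
  rw [← hmp.measure_preimage (meas_Tev h3 R' n' u).nullMeasurableSet]
  congr 1
  ext ω
  exact (Con_app {w | w.length ≤ R'} c (-(n : ℤ) - 1) ω u [] (-(n' : ℤ)) 0).symm

/-- the three events imply the connection -/
lemma comb {R R' n n' : ℕ} {p : W e × Fin (e + 2)} {u : W e} {ω : Env (Lab (W e))}
    (hF : ω ∈ Fev e R n p) (hH : ω ∈ Hev e n p) (hD : ω ∈ Dev e R' n n' (p.2 :: p.1) u) :
    ω ∈ Tev e (R + 1 + R') (n + 1 + n') (u ++ p.2 :: p.1) := by
  have hlen : p.1.length ≤ R := Tev_len hF.1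
  have g1 : Rs (TW e) ((· ++ (p.2 :: p.1)) '' {w | w.length ≤ R'}) ≤ TR e (R + 1 + R') := by
    refine Rs_mono (TW e) ?_
    rintro x ⟨w, hw, rfl⟩
    have hw' : w.length ≤ R' := hw
    simp only [mem_ofPred_eq, List.length_append, List.length_cons]
    omega
  have g2 : Rs (TW e) {p.2 :: p.1, p.1} ≤ TR e (R + 1 + R') := by
    refine Rs_mono (TW e) ?_
    rintro x hx
    rcases hx with rfl | hx
    · simp only [mem_ofPred_eq, List.length_cons]
      omega
    · rw [mem_singleton_iff] at hx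
      subst hx
      simp only [mem_ofPred_eq]
      omega
  have g3 : TR e R ≤ TR e (R + 1 + R') := by
    refine Rs_mono (TW e) ?_
    intro x hx
    have hx' : x.length ≤ R := hx
    simp only [mem_ofPred_eq]
    omega
  have c1 : Con (TR e (R + 1 + R')) ω (u ++ p.2 :: p.1) (-(n' : ℤ) + (-(n : ℤ) - 1))
      ([] ++ (p.2 :: p.1)) (0 + (-(n : ℤ) - 1)) := Con.mono hD g1
  have c2 : Con (TR e (R + 1 + R')) ω (p.2 :: p.1) (-(n : ℤ) - 1) p.1 (-(n : ℤ) - 1 + 1) :=
    Con.mono hH g2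
  have c3 : Con (TR e (R + 1 + R')) ω p.1 (-(n : ℤ)) [] 0 := Con.mono hF.1 g3
  have t1 : -(n' : ℤ) + (-(n : ℤ) - 1) = -((n + 1 + n' : ℕ) : ℤ) := by push_cast; ring
  have t2 : (0 : ℤ) + (-(n : ℤ) - 1) = -(n : ℤ) - 1 := by ring
  have t3 : -(n : ℤ) - 1 + 1 = -(n : ℤ) := by ring
  rw [t1, t2, List.nil_append] at c1
  rw [t3] at c2
  exact (c1.trans c2).trans c3

/-- the decomposition of a vertex is unique -/
lemma inj_on {R n : ℕ} {ω : Env (Lab (W e))} {p p' : W e × Fin (e + 2)} {u u' : W e}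
    (hF : ω ∈ Fev e R n p) (hF' : ω ∈ Fev e R n p')
    (h : u ++ p.2 :: p.1 = u' ++ p'.2 :: p'.1) : p = p' ∧ u = u' := by
  obtain ⟨y, a⟩ := p
  obtain ⟨y', a'⟩ := p'
  simp only at h
  rw [List.append_eq_append_iff] at h
  rcases h with ⟨v, hv1, hv2⟩ | ⟨v, hv1, hv2⟩
  · cases v with
    | nil =>
      rw [List.append_nil] at hv1
      rw [List.nil_append, List.cons.injEq] at hv2
      exact ⟨by rw [hv2.1, hv2.2], hv1.symm⟩
    | cons b v =>
      exfalso
      rw [List.cons_append, List.cons.injEq] at hv2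
      have h1 := hF.1
      simp only at h1
      rw [hv2.2] at h1
      exact hF'.2 v h1
  · cases v with
    | nil =>
      rw [List.append_nil] at hv1
      rw [List.nil_append, List.cons.injEq] at hv2
      exact ⟨by rw [hv2.1, hv2.2], hv1⟩
    | cons b v =>
      exfalso
      rw [List.cons_append, List.cons.injEq] at hv2
      have h1 := hF'.1
      simp only at h1
      rw [hv2.2] at h1
      exact hF.2 v h1

/-- independence of the three events -/
lemma indep3 (h2 : S_BLOCK) (h3 : S_MEAS) (e R R' n n' : ℕ) (lam : ℝ)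
    (p : W e × Fin (e + 2)) (u : W e) :
    mu (W e) lam (Fev e R n p ∩ Hev e n p ∩ Dev e R' n n' (p.2 :: p.1) u) =
      mu (W e) lam (Fev e R n p) * mu (W e) lam (Hev e n p) *
        mu (W e) lam (Dev e R' n n' (p.2 :: p.1) u) := by
  refine inter3 (fun j : Lab (W e) × ℤ => contactRate lam j.1) h2 _ _ _
    {i | -(n : ℤ) ≤ i.2} {i | i.2 = -(n : ℤ) - 1} {i | i.2 < -(n : ℤ) - 1}
    (meas_Fev h3 R n p) (meas_Con h3 _ _ _ _ _) (meas_Con h3 _ _ _ _ _) ?_ ?_ ?_ ?_ ?_ ?_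
  · intro ω ω' h
    have h' : ∀ i : Lab (W e) × ℤ, -(n : ℤ) ≤ i.2 → ω i = ω' i := fun i hi => h i hi
    simp only [Fev, mem_ofPred_eq]
    rw [Tev_congr h']
    refine and_congr Iff.rfl (forall_congr' fun u => ?_)
    rw [Tev_congr h']
  · intro ω ω' h
    refine Con_congr fun i hi => h i ?_
    obtain ⟨h1, h2, _⟩ := hi
    simp only [mem_ofPred_eq]
    omega
  · intro ω ω' h
    refine Con_congr fun i hi => h i ?_
    obtain ⟨h1, h2, _⟩ := hi
    simp only [mem_ofPred_eq]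
    omega
  · rw [Set.disjoint_left]
    intro i hi hi'
    simp only [mem_ofPred_eq] at hi hi'
    omega
  · rw [Set.disjoint_left]
    intro i hi hi'
    simp only [mem_ofPred_eq] at hi hi'
    omega
  · rw [Set.disjoint_left]
    intro i hi hi'
    simp only [mem_ofPred_eq] at hi hi'
    omega

end Events

/-- **[SUPER]** -/
theorem s_super (h1 : S_RIX) (h2 : S_BLOCK) (h3 : S_MEAS) (h4 : S_HAND) (h5 : S_FREE) :
    S_SUPER := by
  intro e lam R R' n n' hlam
  have hR : ∀ R n, bR e lam R n = ∑' w : W e, mu (W e) lam (Tev e R n w) := fun _ _ => rfl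
  rw [hR, hR, hR]
  set E : (W e × Fin (e + 2)) × W e → Set (Env (Lab (W e))) :=
    fun t => Fev e R n t.1 ∩ Hev e n t.1 ∩ Dev e R' n n' (t.1.2 :: t.1.1) t.2 with hE
  have hEm : ∀ t, MeasurableSet (E t) := fun t =>
    ((meas_Fev h3 R n _).inter (meas_Con h3 _ _ _ _ _)).inter (meas_Con h3 _ _ _ _ _)
  -- the events are disjoint over each vertex
  have hA : ∑' t, mu (W e) lam (E t) ≤
      ∑' x : W e, mu (W e) lam (Tev e (R + 1 + R') (n + 1 + n') x) := by
    have h := count_le (P := mu (W e) lam) 1 E (Tev e (R + 1 + R') (n + 1 + n')) hEm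
      (fun x => meas_Tev h3 _ _ x) (by
        intro ω
        rw [Nat.cast_one, one_mul]
        refine Set.encard_le_encard_of_injOn
          (f := fun t : (W e × Fin (e + 2)) × W e => t.2 ++ t.1.2 :: t.1.1) ?_ ?_
        · rintro t ⟨⟨a, b⟩, c⟩
          exact comb a b c
        · rintro ⟨p, u⟩ ⟨⟨a, _⟩, _⟩ ⟨p', u'⟩ ⟨⟨a', _⟩, _⟩ h
          obtain ⟨q1, q2⟩ := inj_on a a' h
          exact Prod.ext q1 q2)
    simpa using h
  have hB : ∀ p : W e × Fin (e + 2), mu (W e) lam (Fev e R n p) * (ENNReal.ofReal (hc lam) *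
      ∑' w : W e, mu (W e) lam (Tev e R' n' w)) ≤ ∑' u : W e, mu (W e) lam (E (p, u)) := by
    intro p
    rw [← ENNReal.tsum_mul_left, ← ENNReal.tsum_mul_left]
    refine ENNReal.tsum_le_tsum fun u => ?_
    have e1 : mu (W e) lam (E (p, u)) = mu (W e) lam (Fev e R n p) * mu (W e) lam (Hev e n p) *
        mu (W e) lam (Dev e R' n n' (p.2 :: p.1) u) := indep3 h2 h3 e R R' n n' lam p u
    rw [e1, Dev_prob h1 h3, ← mul_assoc]
    refine mul_le_mul_left ?_ _
    refine mul_le_mul_right ?_ _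
    exact (h4 (W e) (TW e) lam (p.2 :: p.1) p.1 (-(n : ℤ) - 1) hlam).1 (Or.inl ⟨p.2, rfl⟩)
  calc ENNReal.ofReal (hc lam) * ((e : ℝ≥0∞) + 1) * (∑' w : W e, mu (W e) lam (Tev e R n w)) *
        ∑' w : W e, mu (W e) lam (Tev e R' n' w)
      = (((e + 1 : ℕ) : ℝ≥0∞) * ∑' w : W e, mu (W e) lam (Tev e R n w)) *
        (ENNReal.ofReal (hc lam) * ∑' w : W e, mu (W e) lam (Tev e R' n' w)) := by
        push_cast
        ring
    _ ≤ (∑' p : W e × Fin (e + 2), mu (W e) lam (Fev e R n p)) *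
        (ENNReal.ofReal (hc lam) * ∑' w : W e, mu (W e) lam (Tev e R' n' w)) :=
        mul_le_mul_left (free_mean h3 h5 e R n lam) _
    _ = ∑' p : W e × Fin (e + 2), mu (W e) lam (Fev e R n p) *
        (ENNReal.ofReal (hc lam) * ∑' w : W e, mu (W e) lam (Tev e R' n' w)) :=
        ENNReal.tsum_mul_right.symm
    _ ≤ ∑' p : W e × Fin (e + 2), ∑' u : W e, mu (W e) lam (E (p, u)) :=
        ENNReal.tsum_le_tsum hB
    _ = ∑' t, mu (W e) lam (E t) :=
        (ENNReal.tsum_prod' (f := fun t => mu (W e) lam (E t))).symm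
    _ ≤ _ := hA

end Pool.Agent.H935.SF
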